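import Mathlib

/-!
Configurations `X + K`, written through their first row and first column, and the weighted count.
-/

set_option autoImplicit false
set_option linter.unusedSectionVars false

open Finset

namespace Pool.Agent.R100.Chg

/-- A configuration: the corner `w`, the other entries `u` of the first column and the other
entries `v` of the first row. -/
abbrev Cfg (a b : ℕ) : Type := ℕ × (Fin a → ℕ) × (Fin b → ℕ)

variable {a b : ℕ}

/-- The entries of the table. -/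
def yy (F : Cfg a b) : Fin (a + 1) × Fin (b + 1) → ℕ := fun q =>
  (Fin.cons F.1 F.2.1 : Fin (a + 1) → ℕ) q.1 + (Fin.cons F.1 F.2.2 : Fin (b + 1) → ℕ) q.2 - F.1

/-- A proper configuration. -/
def IsC (F : Cfg a b) : Prop :=
  0 < F.1 ∧ (∀ i, F.1 < F.2.1 i) ∧ (∀ j, F.1 < F.2.2 j) ∧ Function.Injective (yy F)

/-- The exponent `β = (h+g-2)/(hg-1)` with `h = a+1`, `g = b+1`. -/
noncomputable def bet (a b : ℕ) : ℝ := ((a : ℝ) + b) / ((a : ℝ) * b + a + b)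

/-- The exponent `α = 1 - β`. -/
noncomputable def alp (a b : ℕ) : ℝ := ((a : ℝ) * b) / ((a : ℝ) * b + a + b)

lemma alp_add_bet (ha : 0 < a) (hb : 0 < b) : alp a b + bet a b = 1 := by
  unfold alp bet
  have ha' : (0 : ℝ) < a := by exact_mod_cast ha
  have hb' : (0 : ℝ) < b := by exact_mod_cast hb
  field_simp
  ring

lemma bet_pos (ha : 0 < a) (hb : 0 < b) : 0 < bet a b := by
  unfold bet
  have ha' : (0 : ℝ) < a := by exact_mod_cast ha
  have hb' : (0 : ℝ) < b := by exact_mod_cast hb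
  positivity

lemma alp_pos (ha : 0 < a) (hb : 0 < b) : 0 < alp a b := by
  unfold alp
  have ha' : (0 : ℝ) < a := by exact_mod_cast ha
  have hb' : (0 : ℝ) < b := by exact_mod_cast hb
  positivity

lemma yy_zero_zero (F : Cfg a b) : yy F (0, 0) = F.1 := by
  simp [yy]

lemma yy_succ_zero (F : Cfg a b) (i : Fin a) : yy F (i.succ, 0) = F.2.1 i := by
  simp [yy]

lemma yy_zero_succ (F : Cfg a b) (j : Fin b) : yy F (0, j.succ) = F.2.2 j := by
  simp [yy]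

lemma yy_succ_succ (F : Cfg a b) (i : Fin a) (j : Fin b) :
    yy F (i.succ, j.succ) = F.2.1 i + F.2.2 j - F.1 := by
  simp [yy]

/-- The corner inequality. -/
lemma corner_le (ha : 0 < a) (hb : 0 < b) {w u v : ℕ} (hw : 0 < w) (hu : w < u) (hv : w < v) :
    ((u + v - w : ℕ) : ℝ) ^ (-bet a b) ≤
      (u : ℝ) ^ (-(bet a b * (a / (a + b)))) * (v : ℝ) ^ (-(bet a b * (b / (a + b)))) := by
  have ha' : (0 : ℝ) < a := by exact_mod_cast ha
  have hb' : (0 : ℝ) < b := by exact_mod_cast hb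
  have hβ := bet_pos ha hb
  have hu0 : (0 : ℝ) < u := by exact_mod_cast (by omega : 0 < u)
  have hv0 : (0 : ℝ) < v := by exact_mod_cast (by omega : 0 < v)
  have hz0 : (0 : ℝ) < ((u + v - w : ℕ) : ℝ) := by exact_mod_cast (by omega : 0 < u + v - w)
  have hzu : (u : ℝ) ≤ ((u + v - w : ℕ) : ℝ) := by exact_mod_cast (by omega : u ≤ u + v - w)
  have hzv : (v : ℝ) ≤ ((u + v - w : ℕ) : ℝ) := by exact_mod_cast (by omega : v ≤ u + v - w)
  set z := ((u + v - w : ℕ) : ℝ) with hz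
  have e : -bet a b = -(bet a b * (a / (a + b))) + -(bet a b * (b / (a + b))) := by
    field_simp
    ring
  rw [e, Real.rpow_add hz0]
  apply mul_le_mul
  · apply Real.rpow_le_rpow_of_nonpos hu0 hzu
    have : 0 ≤ bet a b * ((a : ℝ) / (a + b)) := by positivity
    linarith
  · apply Real.rpow_le_rpow_of_nonpos hv0 hzv
    have : 0 ≤ bet a b * ((b : ℝ) / (a + b)) := by positivity
    linarith
  · positivity
  · positivity

/-- The weight of a configuration. -/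
lemma weight_le (ha : 0 < a) (hb : 0 < b) (F : Cfg a b) (hF : IsC F) :
    ∏ q, (yy F q : ℝ) ^ (-bet a b) ≤
      (F.1 : ℝ) ^ (-bet a b) * (∏ i, ((F.2.1 i : ℝ))⁻¹) * ∏ j, ((F.2.2 j : ℝ))⁻¹ := by
  obtain ⟨hw, hu, hv, -⟩ := hF
  have ha' : (0 : ℝ) < a := by exact_mod_cast ha
  have hb' : (0 : ℝ) < b := by exact_mod_cast hb
  have hu0 : ∀ i, (0 : ℝ) < F.2.1 i := fun i => by exact_mod_cast (lt_trans hw (hu i))
  have hv0 : ∀ j, (0 : ℝ) < F.2.2 j := fun j => by exact_mod_cast (lt_trans hw (hv j))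
  rw [Fintype.prod_prod_type]
  simp only [Fin.prod_univ_succ, yy_zero_zero, yy_succ_zero, yy_zero_succ, yy_succ_succ]
  have h1 : ∏ i : Fin a, ((F.2.1 i : ℝ) ^ (-bet a b) *
      ∏ j : Fin b, ((F.2.1 i + F.2.2 j - F.1 : ℕ) : ℝ) ^ (-bet a b)) ≤
      ∏ i : Fin a, ((F.2.1 i : ℝ) ^ (-bet a b) *
      ∏ j : Fin b, ((F.2.1 i : ℝ) ^ (-(bet a b * (a / (a + b)))) *
        (F.2.2 j : ℝ) ^ (-(bet a b * (b / (a + b)))))) := by
    apply Finset.prod_le_prod
    · intro i _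
      positivity
    · intro i _
      apply mul_le_mul_of_nonneg_left _ (by positivity)
      apply Finset.prod_le_prod
      · intro j _; positivity
      · intro j _
        exact corner_le ha hb hw (hu i) (hv j)
  have h2 : ∏ i : Fin a, ((F.2.1 i : ℝ) ^ (-bet a b) *
      ∏ j : Fin b, ((F.2.1 i : ℝ) ^ (-(bet a b * (a / (a + b)))) *
        (F.2.2 j : ℝ) ^ (-(bet a b * (b / (a + b)))))) =
      (∏ i, ((F.2.1 i : ℝ))⁻¹) * ∏ j : Fin b, (F.2.2 j : ℝ) ^ (-(bet a b * (b / (a + b))) * a) := by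
    have h3 : ∀ i : Fin a, ((F.2.1 i : ℝ) ^ (-bet a b) *
      ∏ j : Fin b, ((F.2.1 i : ℝ) ^ (-(bet a b * (a / (a + b)))) *
        (F.2.2 j : ℝ) ^ (-(bet a b * (b / (a + b)))))) =
        (F.2.1 i : ℝ)⁻¹ * ∏ j : Fin b, (F.2.2 j : ℝ) ^ (-(bet a b * (b / (a + b)))) := by
      intro i
      rw [Finset.prod_mul_distrib, Finset.prod_const, Finset.card_univ, Fintype.card_fin,
        ← mul_assoc, ← Real.rpow_natCast, ← Real.rpow_mul (hu0 i).le, ← Real.rpow_add (hu0 i)]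
      congr 1
      rw [← Real.rpow_neg_one]
      congr 1
      unfold bet
      field_simp
      ring
    rw [Finset.prod_congr rfl (fun i _ => h3 i), Finset.prod_mul_distrib, Finset.prod_const,
      Finset.card_univ, Fintype.card_fin, ← Finset.prod_pow]
    congr 1
    apply Finset.prod_congr rfl
    intro j _
    rw [← Real.rpow_natCast, ← Real.rpow_mul (hv0 j).le]
  calc (F.1 : ℝ) ^ (-bet a b) * (∏ j : Fin b, (F.2.2 j : ℝ) ^ (-bet a b)) *
        ∏ i : Fin a, ((F.2.1 i : ℝ) ^ (-bet a b) *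
        ∏ j : Fin b, ((F.2.1 i + F.2.2 j - F.1 : ℕ) : ℝ) ^ (-bet a b))
      ≤ (F.1 : ℝ) ^ (-bet a b) * (∏ j : Fin b, (F.2.2 j : ℝ) ^ (-bet a b)) *
        ((∏ i, ((F.2.1 i : ℝ))⁻¹) *
          ∏ j : Fin b, (F.2.2 j : ℝ) ^ (-(bet a b * (b / (a + b))) * a)) := by
        rw [← h2]
        exact mul_le_mul_of_nonneg_left h1 (by positivity)
    _ = (F.1 : ℝ) ^ (-bet a b) * (∏ i, ((F.2.1 i : ℝ))⁻¹) *
        ∏ j : Fin b, ((F.2.2 j : ℝ) ^ (-bet a b) *
          (F.2.2 j : ℝ) ^ (-(bet a b * (b / (a + b))) * a)) := by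
        rw [Finset.prod_mul_distrib]
        ring
    _ = (F.1 : ℝ) ^ (-bet a b) * (∏ i, ((F.2.1 i : ℝ))⁻¹) * ∏ j, ((F.2.2 j : ℝ))⁻¹ := by
        congr 1
        apply Finset.prod_congr rfl
        intro j _
        rw [← Real.rpow_add (hv0 j), ← Real.rpow_neg_one]
        congr 1
        unfold bet
        field_simp
        ring
    _ ≤ _ := le_rfl

/-- The box of configurations with entries in `[1, M]`. -/
def Box (a b M : ℕ) : Finset (Cfg a b) :=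
  Icc 1 M ×ˢ (Fintype.piFinset (fun _ => Icc 1 M) ×ˢ Fintype.piFinset (fun _ => Icc 1 M))

lemma sum_box_le (ha : 0 < a) (hb : 0 < b) (M : ℕ) (hM : 0 < M) :
    ∑ F ∈ Box a b M, ((F.1 : ℝ) ^ (-bet a b) * (∏ i, ((F.2.1 i : ℝ))⁻¹) *
      ∏ j, ((F.2.2 j : ℝ))⁻¹) ≤ (M : ℝ) ^ (alp a b) * (1 + Real.log M) ^ (a + b + 1) := by
  have hH : ∑ n ∈ Icc 1 M, ((n : ℝ))⁻¹ ≤ 1 + Real.log M := by
    have := harmonic_le_one_add_log M
    rw [harmonic_eq_sum_Icc] at this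
    push_cast at this
    exact this
  have hH0 : (0 : ℝ) ≤ ∑ n ∈ Icc 1 M, ((n : ℝ))⁻¹ := Finset.sum_nonneg (fun n _ => by positivity)
  have hα := alp_pos ha hb
  have h1 : ∑ n ∈ Icc 1 M, (n : ℝ) ^ (-bet a b) ≤
      (M : ℝ) ^ (alp a b) * ∑ n ∈ Icc 1 M, ((n : ℝ))⁻¹ := by
    rw [Finset.mul_sum]
    apply Finset.sum_le_sum
    intro n hn
    rw [Finset.mem_Icc] at hn
    have hn0 : (0 : ℝ) < n := by exact_mod_cast hn.1
    have e : -bet a b = alp a b + (-1) := by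
      have := alp_add_bet ha hb
      linarith
    rw [e, Real.rpow_add hn0, Real.rpow_neg_one]
    apply mul_le_mul_of_nonneg_right _ (by positivity)
    exact Real.rpow_le_rpow hn0.le (by exact_mod_cast hn.2) hα.le
  have h2 : ∑ F ∈ Box a b M, ((F.1 : ℝ) ^ (-bet a b) * (∏ i, ((F.2.1 i : ℝ))⁻¹) *
      ∏ j, ((F.2.2 j : ℝ))⁻¹) = (∑ n ∈ Icc 1 M, (n : ℝ) ^ (-bet a b)) *
      (∑ n ∈ Icc 1 M, ((n : ℝ))⁻¹) ^ a * (∑ n ∈ Icc 1 M, ((n : ℝ))⁻¹) ^ b := by
    unfold Box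
    rw [Finset.sum_product]
    have hu : ∑ f ∈ Fintype.piFinset (fun _ : Fin a => Icc 1 M), ∏ i, ((f i : ℝ))⁻¹ =
        (∑ n ∈ Icc 1 M, ((n : ℝ))⁻¹) ^ a := by
      rw [Finset.sum_prod_piFinset (Icc 1 M) (fun (_ : Fin a) (n : ℕ) => ((n : ℝ))⁻¹)]
      simp
    have hv : ∑ f ∈ Fintype.piFinset (fun _ : Fin b => Icc 1 M), ∏ i, ((f i : ℝ))⁻¹ =
        (∑ n ∈ Icc 1 M, ((n : ℝ))⁻¹) ^ b := by
      rw [Finset.sum_prod_piFinset (Icc 1 M) (fun (_ : Fin b) (n : ℕ) => ((n : ℝ))⁻¹)]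
      simp
    rw [← hu, ← hv, mul_assoc, Finset.sum_mul_sum, Finset.sum_mul]
    apply Finset.sum_congr rfl
    intro w _
    rw [Finset.sum_product, Finset.mul_sum]
    apply Finset.sum_congr rfl
    intro u _
    rw [Finset.mul_sum]
    apply Finset.sum_congr rfl
    intro v _
    simp only
    ring
  rw [h2]
  calc (∑ n ∈ Icc 1 M, (n : ℝ) ^ (-bet a b)) *
      (∑ n ∈ Icc 1 M, ((n : ℝ))⁻¹) ^ a * (∑ n ∈ Icc 1 M, ((n : ℝ))⁻¹) ^ b
      ≤ ((M : ℝ) ^ (alp a b) * ∑ n ∈ Icc 1 M, ((n : ℝ))⁻¹) *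
      (∑ n ∈ Icc 1 M, ((n : ℝ))⁻¹) ^ a * (∑ n ∈ Icc 1 M, ((n : ℝ))⁻¹) ^ b := by
        gcongr
    _ = (M : ℝ) ^ (alp a b) * (∑ n ∈ Icc 1 M, ((n : ℝ))⁻¹) ^ (a + b + 1) := by ring
    _ ≤ _ := by gcongr

end Pool.Agent.R100.Chg
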