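import Mathlib
import Pool.Agent.R100.ChgCfg

/-!
The weights `p n` and the expected number of configurations with largest entry in a given block.
-/

set_option autoImplicit false
set_option linter.unusedSectionVars false

open Finset

namespace Pool.Agent.R100.Chg

variable {a b : ℕ}

/-- The block index of an integer. -/
def kap (n : ℕ) : ℕ := Nat.sqrt (Nat.log 2 n)

/-- The weight function. -/
noncomputable def pp (a b : ℕ) (n : ℕ) : ℝ :=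
  2 * (n : ℝ) ^ (-bet a b) * ((1 : ℝ) / 2) ^ (9 * kap n)

lemma pp_nonneg (n : ℕ) : 0 ≤ pp a b n := by
  unfold pp; positivity

lemma kap_of_mem {k n : ℕ} (h1 : 2 ^ (k ^ 2) ≤ n) (h2 : n < 2 ^ (k ^ 2 + 1)) : kap n = k := by
  unfold kap
  have h3 : Nat.log 2 n = k ^ 2 := by
    apply Nat.log_eq_of_pow_le_of_lt_pow h1 h2
  rw [h3, pow_two, Nat.sqrt_eq]

lemma kap_ge {k n : ℕ} (hk : 1 ≤ k) (h1 : 2 ^ (k ^ 2) ≤ 2 * n) : k - 1 ≤ kap n := by
  unfold kap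
  have h2 : 2 ^ ((k - 1) ^ 2) ≤ n := by
    have : (k - 1) ^ 2 + 1 ≤ k ^ 2 := by
      obtain ⟨m, rfl⟩ : ∃ m, k = m + 1 := ⟨k - 1, by omega⟩
      simp only [Nat.add_sub_cancel]
      nlinarith
    have h3 : 2 ^ ((k - 1) ^ 2 + 1) ≤ 2 * n := (Nat.pow_le_pow_right (by norm_num) this).trans h1
    rw [pow_succ] at h3
    omega
  have h4 : (k - 1) ^ 2 ≤ Nat.log 2 n := by
    apply Nat.le_log_of_pow_le (by norm_num) h2
  rw [Nat.le_sqrt']
  exact h4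

lemma prod_le_two {Q : Type} [Fintype Q] [DecidableEq Q] (f : Q → ℝ) (h0 : ∀ q, 0 ≤ f q)
    (h1 : ∀ q, f q ≤ 1) {q1 q2 : Q} (hne : q1 ≠ q2) : ∏ q, f q ≤ f q1 * f q2 := by
  rw [← Finset.mul_prod_erase univ f (mem_univ q1),
    ← Finset.mul_prod_erase (univ.erase q1) f (mem_erase.2 ⟨hne.symm, mem_univ q2⟩), ← mul_assoc]
  have : ∏ x ∈ (univ.erase q1).erase q2, f x ≤ 1 :=
    Finset.prod_le_one (fun q _ => h0 q) (fun q _ => h1 q)
  calc f q1 * f q2 * ∏ x ∈ (univ.erase q1).erase q2, f x ≤ f q1 * f q2 * 1 := by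
        apply mul_le_mul_of_nonneg_left this (mul_nonneg (h0 _) (h0 _))
    _ = _ := mul_one _

/-- The set of entries. -/
def pts (F : Cfg a b) : Finset ℕ := univ.image (yy F)

open Classical in
/-- Configurations with largest entry in the `k`-th block. -/
noncomputable def Conf (a b k : ℕ) : Finset (Cfg a b) :=
  (Box a b (2 ^ (k ^ 2 + 1))).filter (fun F => IsC F ∧
    ∃ q, 2 ^ (k ^ 2) ≤ yy F q ∧ yy F q < 2 ^ (k ^ 2 + 1) ∧ ∀ q', yy F q' ≤ yy F q)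

lemma mem_Conf {k : ℕ} {F : Cfg a b} : F ∈ Conf a b k ↔ F ∈ Box a b (2 ^ (k ^ 2 + 1)) ∧ IsC F ∧
    ∃ q, 2 ^ (k ^ 2) ≤ yy F q ∧ yy F q < 2 ^ (k ^ 2 + 1) ∧ ∀ q', yy F q' ≤ yy F q := by
  classical
  unfold Conf
  exact Finset.mem_filter

/-- In a proper configuration another entry is at least half of the largest one. -/
lemma exists_second (ha : 0 < a) (hb : 0 < b) (F : Cfg a b) (hF : IsC F)
    (q : Fin (a + 1) × Fin (b + 1)) (hq : ∀ q', yy F q' ≤ yy F q) :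
    ∃ q', q' ≠ q ∧ yy F q ≤ 2 * yy F q' := by
  obtain ⟨hw, hu, hv, hinj⟩ := hF
  obtain ⟨i, j⟩ := q
  rcases Fin.eq_zero_or_eq_succ i with rfl | ⟨i', rfl⟩
  · -- then adding a row gives something larger
    exfalso
    have hlt : yy F (0, j) < yy F ((⟨0, ha⟩ : Fin a).succ, j) := by
      rcases Fin.eq_zero_or_eq_succ j with rfl | ⟨j', rfl⟩
      · rw [yy_zero_zero, yy_succ_zero]; exact hu _
      · rw [yy_zero_succ, yy_succ_succ]; have := hu ⟨0, ha⟩; have := hv j'; omega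
    exact absurd (hq _) (not_le.2 hlt)
  · rcases Fin.eq_zero_or_eq_succ j with rfl | ⟨j', rfl⟩
    · exfalso
      have hlt : yy F (i'.succ, 0) < yy F (i'.succ, (⟨0, hb⟩ : Fin b).succ) := by
        rw [yy_succ_zero, yy_succ_succ]; have := hu i'; have := hv ⟨0, hb⟩; omega
      exact absurd (hq _) (not_le.2 hlt)
    · rcases le_total (F.2.1 i') (F.2.2 j') with h | h
      · refine ⟨(0, j'.succ), ?_, ?_⟩
        · intro hc
          have := congrArg Prod.fst hc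
          exact absurd this.symm (Fin.succ_ne_zero i')
        · rw [yy_zero_succ, yy_succ_succ]; omega
      · refine ⟨(i'.succ, 0), ?_, ?_⟩
        · intro hc
          have := congrArg Prod.snd hc
          exact absurd this.symm (Fin.succ_ne_zero j')
        · rw [yy_succ_zero, yy_succ_succ]; omega

lemma prod_pts_le (ha : 0 < a) (hb : 0 < b) {k : ℕ} (hk : 1 ≤ k) (F : Cfg a b)
    (hF : F ∈ Conf a b k) :
    ∏ n ∈ pts F, pp a b n ≤ 2 ^ ((a + 1) * (b + 1)) * (((1 : ℝ) / 2) ^ (9 * k) *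
      ((1 : ℝ) / 2) ^ (9 * (k - 1))) * ((F.1 : ℝ) ^ (-bet a b) * (∏ i, ((F.2.1 i : ℝ))⁻¹) *
      ∏ j, ((F.2.2 j : ℝ))⁻¹) := by
  classical
  rw [mem_Conf] at hF
  obtain ⟨-, hC, q, hq1, hq2, hq3⟩ := hF
  have hinj := hC.2.2.2
  unfold pts
  rw [Finset.prod_image (fun x _ y _ h => hinj h)]
  unfold pp
  rw [Finset.prod_mul_distrib, Finset.prod_mul_distrib, Finset.prod_const, Finset.card_univ,
    Fintype.card_prod, Fintype.card_fin, Fintype.card_fin]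
  obtain ⟨q', hne, hq'⟩ := exists_second ha hb F hC q hq3
  have hk1 : kap (yy F q) = k := kap_of_mem hq1 hq2
  have hk2 : k - 1 ≤ kap (yy F q') := kap_ge hk (hq1.trans hq')
  have h1 : ∏ q, ((1 : ℝ) / 2) ^ (9 * kap (yy F q)) ≤
      ((1 : ℝ) / 2) ^ (9 * k) * ((1 : ℝ) / 2) ^ (9 * (k - 1)) := by
    refine (prod_le_two (fun q => ((1 : ℝ) / 2) ^ (9 * kap (yy F q))) (fun q => by positivity)
      (fun q => pow_le_one₀ (by norm_num) (by norm_num)) hne.symm).trans ?_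
    rw [hk1]
    apply mul_le_mul_of_nonneg_left _ (by positivity)
    apply pow_le_pow_of_le_one (by norm_num) (by norm_num)
    omega
  have h2 := weight_le ha hb F hC
  have h3 : (0 : ℝ) ≤ ∏ q, (yy F q : ℝ) ^ (-bet a b) := by positivity
  calc 2 ^ ((a + 1) * (b + 1)) * (∏ q, (yy F q : ℝ) ^ (-bet a b)) *
        ∏ q, ((1 : ℝ) / 2) ^ (9 * kap (yy F q))
      ≤ 2 ^ ((a + 1) * (b + 1)) * ((F.1 : ℝ) ^ (-bet a b) * (∏ i, ((F.2.1 i : ℝ))⁻¹) *
      ∏ j, ((F.2.2 j : ℝ))⁻¹) * (((1 : ℝ) / 2) ^ (9 * k) * ((1 : ℝ) / 2) ^ (9 * (k - 1))) := by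
        gcongr
    _ = _ := by ring

theorem sum_conf_le (ha : 0 < a) (hb : 0 < b) {k : ℕ} (hk : 1 ≤ k) :
    ∑ F ∈ Conf a b k, ∏ n ∈ pts F, pp a b n ≤
      2 ^ ((a + 1) * (b + 1)) * (((1 : ℝ) / 2) ^ (9 * k) * ((1 : ℝ) / 2) ^ (9 * (k - 1))) *
      (((2 : ℝ) ^ ((k : ℝ) ^ 2 + 1)) ^ (alp a b) * ((k : ℝ) ^ 2 + 2) ^ (a + b + 1)) := by
  calc ∑ F ∈ Conf a b k, ∏ n ∈ pts F, pp a b n
      ≤ ∑ F ∈ Conf a b k, 2 ^ ((a + 1) * (b + 1)) * (((1 : ℝ) / 2) ^ (9 * k) *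
      ((1 : ℝ) / 2) ^ (9 * (k - 1))) * ((F.1 : ℝ) ^ (-bet a b) * (∏ i, ((F.2.1 i : ℝ))⁻¹) *
      ∏ j, ((F.2.2 j : ℝ))⁻¹) := Finset.sum_le_sum (fun F hF => prod_pts_le ha hb hk F hF)
    _ ≤ ∑ F ∈ Box a b (2 ^ (k ^ 2 + 1)), 2 ^ ((a + 1) * (b + 1)) * (((1 : ℝ) / 2) ^ (9 * k) *
      ((1 : ℝ) / 2) ^ (9 * (k - 1))) * ((F.1 : ℝ) ^ (-bet a b) * (∏ i, ((F.2.1 i : ℝ))⁻¹) *
      ∏ j, ((F.2.2 j : ℝ))⁻¹) := by
        apply Finset.sum_le_sum_of_subset_of_nonneg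
        · intro F hF
          exact (mem_Conf.1 hF).1
        · intro F _ _; positivity
    _ = 2 ^ ((a + 1) * (b + 1)) * (((1 : ℝ) / 2) ^ (9 * k) * ((1 : ℝ) / 2) ^ (9 * (k - 1))) *
        ∑ F ∈ Box a b (2 ^ (k ^ 2 + 1)), ((F.1 : ℝ) ^ (-bet a b) * (∏ i, ((F.2.1 i : ℝ))⁻¹) *
      ∏ j, ((F.2.2 j : ℝ))⁻¹) := by rw [Finset.mul_sum]
    _ ≤ 2 ^ ((a + 1) * (b + 1)) * (((1 : ℝ) / 2) ^ (9 * k) * ((1 : ℝ) / 2) ^ (9 * (k - 1))) *
        (((2 ^ (k ^ 2 + 1) : ℕ) : ℝ) ^ (alp a b) *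
          (1 + Real.log ((2 ^ (k ^ 2 + 1) : ℕ) : ℝ)) ^ (a + b + 1)) := by
        apply mul_le_mul_of_nonneg_left _ (by positivity)
        exact sum_box_le ha hb _ (by positivity)
    _ ≤ _ := by
        have hα := alp_pos ha hb
        have e1 : ((2 ^ (k ^ 2 + 1) : ℕ) : ℝ) = (2 : ℝ) ^ ((k : ℝ) ^ 2 + 1) := by
          push_cast
          rw [← Real.rpow_natCast]
          push_cast
          rfl
        have e2 : 1 + Real.log ((2 ^ (k ^ 2 + 1) : ℕ) : ℝ) ≤ (k : ℝ) ^ 2 + 2 := by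
          rw [e1, Real.log_rpow (by norm_num)]
          have : Real.log 2 ≤ 1 := by
            have := Real.log_two_lt_d9
            linarith
          have h5 : ((k : ℝ) ^ 2 + 1) * Real.log 2 ≤ ((k : ℝ) ^ 2 + 1) * 1 :=
            mul_le_mul_of_nonneg_left this (by positivity)
          linarith
        have e3 : 0 ≤ 1 + Real.log ((2 ^ (k ^ 2 + 1) : ℕ) : ℝ) := by
          have : 0 ≤ Real.log ((2 ^ (k ^ 2 + 1) : ℕ) : ℝ) := by
            apply Real.log_nonneg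
            exact_mod_cast Nat.one_le_two_pow
          linarith
        apply mul_le_mul_of_nonneg_left _ (by positivity)
        rw [e1] at e2 e3 ⊢
        gcongr

end Pool.Agent.R100.Chg
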