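import Mathlib
import Pool.Agent.R100.ChgSum

/-!
Base sets without three-term progressions in the blocks, and numerical estimates.
-/

set_option autoImplicit false
set_option linter.unusedSectionVars false

open Finset

namespace Pool.Agent.R100.Chg

lemma exp_ge (k : ℕ) : (2 : ℝ) ^ (-(6 * (k : ℝ))) ≤ Real.exp (-4 * (k : ℝ)) := by
  have h1 : Real.exp 4 ≤ 64 := by
    have h := Real.exp_one_lt_d9
    have e : Real.exp 4 = (Real.exp 1) ^ 4 := by
      rw [← Real.exp_nat_mul]; norm_num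
    rw [e]
    have h0 : 0 < Real.exp 1 := Real.exp_pos 1
    calc (Real.exp 1) ^ 4 ≤ 2.7182818286 ^ 4 := by gcongr
      _ ≤ 64 := by norm_num
  have e1 : (2 : ℝ) ^ (-(6 * (k : ℝ))) = (64 : ℝ)⁻¹ ^ k := by
    rw [show -(6 * (k : ℝ)) = (-6 : ℝ) * (k : ℝ) by ring, Real.rpow_mul (by norm_num),
      Real.rpow_natCast]
    congr 1
    rw [show (-6 : ℝ) = ((-6 : ℤ) : ℝ) by norm_num, Real.rpow_intCast]
    norm_num
  have e2 : Real.exp (-4 * (k : ℝ)) = (Real.exp 4)⁻¹ ^ k := by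
    rw [← Real.exp_neg, ← Real.exp_nat_mul]
    congr 1
    ring
  rw [e1, e2]
  have : (0 : ℝ) < Real.exp 4 := Real.exp_pos 4
  gcongr

lemma exists_base (k : ℕ) (hk : 3 ≤ k) : ∃ B : Finset ℕ,
    (∀ n ∈ B, 2 ^ (k ^ 2) ≤ n ∧ n < 2 ^ (k ^ 2) + 2 ^ (k ^ 2 - 2)) ∧
    ThreeAPFree (B : Set ℕ) ∧ (2 : ℝ) ^ ((k : ℝ) ^ 2 - 2 - 6 * k) ≤ B.card := by
  obtain ⟨t, ht, hcard, hfree⟩ := rothNumberNat_spec (2 ^ (k ^ 2 - 2))
  refine ⟨t.image (fun n => 2 ^ (k ^ 2) + n), ?_, ?_, ?_⟩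
  · intro n hn
    rw [Finset.mem_image] at hn
    obtain ⟨m, hm, rfl⟩ := hn
    have := Finset.mem_range.1 (ht hm)
    omega
  · intro x hx y hy z hz hxyz
    rw [Finset.mem_coe, Finset.mem_image] at hx hy hz
    obtain ⟨x', hx', rfl⟩ := hx
    obtain ⟨y', hy', rfl⟩ := hy
    obtain ⟨z', hz', rfl⟩ := hz
    have h : x' + z' = y' + y' := by omega
    have := hfree hx' hy' hz' h
    rw [this]
  · rw [Finset.card_image_of_injective _ (add_right_injective _), hcard]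
    have h9 : 2 ≤ k ^ 2 := by nlinarith
    have e1 : (((2 ^ (k ^ 2 - 2) : ℕ)) : ℝ) = (2 : ℝ) ^ ((k : ℝ) ^ 2 - 2) := by
      push_cast
      rw [← Real.rpow_natCast, Nat.cast_sub h9]
      push_cast
      rfl
    have hr := Behrend.roth_lower_bound (N := 2 ^ (k ^ 2 - 2))
    refine le_trans ?_ hr
    rw [e1]
    have h2 : √(Real.log ((2 : ℝ) ^ ((k : ℝ) ^ 2 - 2))) ≤ k := by
      rw [Real.sqrt_le_left (by positivity), Real.log_rpow (by norm_num)]
      have hl := Real.log_two_lt_d9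
      have hl0 : 0 < Real.log 2 := Real.log_pos (by norm_num)
      have hk2 : (0 : ℝ) ≤ (k : ℝ) ^ 2 - 2 := by
        have : (2 : ℝ) ≤ (k : ℝ) ^ 2 := by exact_mod_cast h9
        linarith
      calc ((k : ℝ) ^ 2 - 2) * Real.log 2 ≤ ((k : ℝ) ^ 2 - 2) * 1 :=
            mul_le_mul_of_nonneg_left (by linarith) hk2
        _ ≤ (k : ℝ) ^ 2 := by linarith
    have h3 : Real.exp (-4 * (k : ℝ)) ≤
        Real.exp (-4 * √(Real.log ((2 : ℝ) ^ ((k : ℝ) ^ 2 - 2)))) := by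
      apply Real.exp_le_exp.2
      linarith
    calc (2 : ℝ) ^ ((k : ℝ) ^ 2 - 2 - 6 * k)
        = (2 : ℝ) ^ ((k : ℝ) ^ 2 - 2) * (2 : ℝ) ^ (-(6 * (k : ℝ))) := by
          rw [← Real.rpow_add (by norm_num)]; congr 1
      _ ≤ (2 : ℝ) ^ ((k : ℝ) ^ 2 - 2) *
          Real.exp (-4 * √(Real.log ((2 : ℝ) ^ ((k : ℝ) ^ 2 - 2)))) := by
          apply mul_le_mul_of_nonneg_left ((exp_ge k).trans h3) (by positivity)

/-- Polynomials are dominated by powers of two. -/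
lemma eventually_poly (C : ℝ) (r : ℕ) :
    ∀ᶠ k : ℕ in Filter.atTop, C * ((k : ℝ) ^ 2 + 2) ^ r ≤ 2 ^ k := by
  have h1 : (fun k : ℕ => C * ((k : ℝ) ^ 2 + 2) ^ r) =o[Filter.atTop] (fun k : ℕ => (2 : ℝ) ^ k) := by
    apply Asymptotics.IsLittleO.const_mul_left
    have h2 : (fun k : ℕ => ((k : ℝ) ^ 2 + 2) ^ r) =O[Filter.atTop] (fun k : ℕ => (k : ℝ) ^ (2 * r)) := by
      have h3 : (fun k : ℕ => ((k : ℝ) ^ 2 + 2)) =O[Filter.atTop] (fun k : ℕ => (k : ℝ) ^ 2) := by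
        apply Asymptotics.IsBigO.of_bound 3
        filter_upwards [Filter.eventually_ge_atTop 1] with k hk
        have hk' : (1 : ℝ) ≤ (k : ℝ) ^ 2 := by
          have : (1 : ℝ) ≤ k := by exact_mod_cast hk
          nlinarith
        rw [Real.norm_of_nonneg (by positivity), Real.norm_of_nonneg (by positivity)]
        linarith
      have h4 := h3.pow r
      refine h4.trans ?_
      apply Asymptotics.IsBigO.of_bound 1
      filter_upwards with k
      rw [← pow_mul, one_mul]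
    refine h2.trans_isLittleO ?_
    exact isLittleO_pow_const_const_pow_of_one_lt (R := ℝ) (2 * r) (by norm_num)
  have h2 := h1.bound (c := 1) one_pos
  filter_upwards [h2] with k hk
  rw [one_mul, Real.norm_of_nonneg (by positivity : (0 : ℝ) ≤ (2 : ℝ) ^ k)] at hk
  exact (le_abs_self _).trans hk

end Pool.Agent.R100.Chg
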