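import Mathlib

/-!
Abstract first moment argument: choose independently and uniformly one element in each cell.
-/

set_option autoImplicit false
set_option linter.unusedSectionVars false

open MeasureTheory
open scoped ENNReal

namespace Pool.Agent.R100.Chg

section prob

variable {ι : Type} (m : ι → ℕ) [∀ c, NeZero (m c)]

/-- The uniform product measure on choice functions. -/
noncomputable def PP : Measure (∀ c, Fin (m c)) :=
  Measure.infinitePi (fun c => (PMF.uniformOfFintype (Fin (m c))).toMeasure)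

instance : IsProbabilityMeasure (PP m) := by
  unfold PP; infer_instance

variable (E : (Σ c, Fin (m c)) → ℕ)

/-- The random set attached to a choice function. -/
def AA (ω : ∀ c, Fin (m c)) : Set ℕ := {n | ∃ c, E ⟨c, ω c⟩ = n}

variable {m E}

lemma mem_AA_iff (hE : Function.Injective E) (ω : ∀ c, Fin (m c)) (c : ι) (s : Fin (m c)) :
    E ⟨c, s⟩ ∈ AA m E ω ↔ ω c = s := by
  constructor
  · rintro ⟨c', h⟩
    have h2 := hE h
    obtain ⟨h3, h4⟩ := Sigma.mk.inj h2
    subst h3
    exact eq_of_heq h4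
  · intro h
    exact ⟨c, by rw [h]⟩

lemma measurableSet_mem (hE : Function.Injective E) (n : ℕ) :
    MeasurableSet {ω : ∀ c, Fin (m c) | n ∈ AA m E ω} := by
  by_cases hn : n ∈ Set.range E
  · obtain ⟨⟨c, s⟩, rfl⟩ := hn
    have : {ω : ∀ c, Fin (m c) | E ⟨c, s⟩ ∈ AA m E ω} = (fun ω => ω c) ⁻¹' {s} := by
      ext ω
      simp [mem_AA_iff hE]
    rw [this]
    exact (measurable_pi_apply c) (measurableSet_singleton s)
  · have : {ω : ∀ c, Fin (m c) | n ∈ AA m E ω} = ∅ := by
      ext ω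
      simp only [Set.mem_ofPred_eq, Set.mem_empty_iff_false, iff_false]
      rintro ⟨c, h⟩
      exact hn ⟨_, h⟩
    rw [this]
    exact MeasurableSet.empty

lemma measurableSet_subset (hE : Function.Injective E) (S : Finset ℕ) :
    MeasurableSet {ω : ∀ c, Fin (m c) | ∀ n ∈ S, n ∈ AA m E ω} := by
  have : {ω : ∀ c, Fin (m c) | ∀ n ∈ S, n ∈ AA m E ω} =
      ⋂ n ∈ S, {ω : ∀ c, Fin (m c) | n ∈ AA m E ω} := by
    ext ω; simp
  rw [this]
  exact Finset.measurableSet_biInter S (fun n _ => measurableSet_mem hE n)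

/-- The probability that all elements of `S` are chosen is at most the product of the `p n`. -/
lemma prob_subset_le (hE : Function.Injective E) (p : ℕ → ℝ) (hp0 : ∀ n, 0 ≤ p n)
    (hp : ∀ c s, (1 : ℝ) / m c ≤ p (E ⟨c, s⟩)) (S : Finset ℕ) :
    PP m {ω | ∀ n ∈ S, n ∈ AA m E ω} ≤ ENNReal.ofReal (∏ n ∈ S, p n) := by
  classical
  rcases S.eq_empty_or_nonempty with rfl | hne
  · simpa using prob_le_one
  by_cases hS : ∀ n ∈ S, n ∈ Set.range E
  · haveI : Nonempty (Σ c, Fin (m c)) := by
      obtain ⟨n, hn⟩ := hne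
      obtain ⟨q, _⟩ := hS n hn
      exact ⟨q⟩
    choose! q hq using hS
    by_cases hinj : Set.InjOn (fun n => (q n).1) S
    · have hsub : {ω : ∀ c, Fin (m c) | ∀ n ∈ S, n ∈ AA m E ω} ⊆
          Set.pi ((S.image (fun n => (q n).1) : Finset ι) : Set ι)
            (fun c => {s | ∀ n ∈ S, ∀ h : (q n).1 = c, s = h ▸ (q n).2}) := by
        intro ω hω c hc s hs h
        subst h
        have := hω s hs
        rw [← hq s hs, show q s = ⟨(q s).1, (q s).2⟩ from rfl, mem_AA_iff hE] at this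
        simpa using this
      refine (measure_mono hsub).trans ?_
      unfold PP
      rw [Measure.infinitePi_pi _ (fun i _ => (Set.toFinite _).measurableSet)]
      rw [Finset.prod_image hinj, ENNReal.ofReal_prod_of_nonneg (fun n _ => hp0 n)]
      refine Finset.prod_le_prod' (fun n hn => ?_)
      have hset : {s : Fin (m (q n).1) | ∀ n' ∈ S, ∀ h : (q n').1 = (q n).1, s = h ▸ (q n').2} ⊆
          {(q n).2} := by
        intro s hs
        have := hs n hn rfl
        simpa using this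
      refine (measure_mono hset).trans ?_
      rw [PMF.toMeasure_apply_singleton _ _ (measurableSet_singleton _),
        PMF.uniformOfFintype_apply, Fintype.card_fin]
      have h1 := hp (q n).1 (q n).2
      have h2 : E ⟨(q n).1, (q n).2⟩ = n := hq n hn
      rw [h2] at h1
      have hm : (0 : ℝ) < m (q n).1 := by
        have := NeZero.pos (m (q n).1)
        exact_mod_cast this
      calc ((m (q n).1 : ℝ≥0∞))⁻¹ = ENNReal.ofReal ((1 : ℝ) / m (q n).1) := by
            rw [one_div, ENNReal.ofReal_inv_of_pos hm, ENNReal.ofReal_natCast]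
        _ ≤ ENNReal.ofReal (p n) := ENNReal.ofReal_le_ofReal h1
    · have : {ω : ∀ c, Fin (m c) | ∀ n ∈ S, n ∈ AA m E ω} = ∅ := by
        ext ω
        simp only [Set.mem_ofPred_eq, Set.mem_empty_iff_false, iff_false]
        intro hω
        apply hinj
        intro n hn n' hn' hc
        have h1 := hω n hn
        have h2 := hω n' hn'
        rw [← hq n hn, show q n = ⟨(q n).1, (q n).2⟩ from rfl, mem_AA_iff hE] at h1
        rw [← hq n' hn', show q n' = ⟨(q n').1, (q n').2⟩ from rfl, mem_AA_iff hE] at h2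
        have h3 : q n = q n' := by
          have e1 : q n = ⟨(q n).1, ω (q n).1⟩ := by rw [h1]
          have e2 : q n' = ⟨(q n').1, ω (q n').1⟩ := by rw [h2]
          rw [e1, e2]
          simp only at hc
          rw [hc]
        rw [← hq n hn, ← hq n' hn', h3]
      rw [this]
      simp
  · have : {ω : ∀ c, Fin (m c) | ∀ n ∈ S, n ∈ AA m E ω} = ∅ := by
      ext ω
      simp only [Set.mem_ofPred_eq, Set.mem_empty_iff_false, iff_false]
      intro hω
      apply hS
      intro n hn
      obtain ⟨c, h⟩ := hω n hn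
      exact ⟨_, h⟩
    rw [this]
    simp

open Classical in
/-- Existence of a choice function with few configurations of each kind. -/
theorem exists_choice (hE : Function.Injective E) (p : ℕ → ℝ) (hp0 : ∀ n, 0 ≤ p n)
    (hp : ∀ c s, (1 : ℝ) / m c ≤ p (E ⟨c, s⟩)) {C : Type} (pts : C → Finset ℕ)
    (Conf : ℕ → Finset C) (t δ : ℕ → ℝ) (ht : ∀ k, 0 < t k) (hδ : ∀ k, 0 ≤ δ k)
    (hsum : Summable δ) (hlt : ∑' k, δ k < 1)
    (hb : ∀ k, ∑ F ∈ Conf k, ∏ n ∈ pts F, p n ≤ δ k * t k) :
    ∃ ω : ∀ c, Fin (m c), ∀ k,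
      (((Conf k).filter (fun F => ∀ n ∈ pts F, n ∈ AA m E ω)).card : ℝ) < t k := by
  by_contra hcon
  push Not at hcon
  have hmeas : ∀ k, Measurable (fun ω : ∀ c, Fin (m c) =>
      ∑ F ∈ Conf k, Set.indicator {ω | ∀ n ∈ pts F, n ∈ AA m E ω} (fun _ => (1 : ℝ≥0∞)) ω) := by
    intro k
    refine Finset.measurable_fun_sum _ (fun F _ => ?_)
    exact measurable_const.indicator (measurableSet_subset hE (pts F))
  have hcard : ∀ k (ω : ∀ c, Fin (m c)), ∑ F ∈ Conf k,
      Set.indicator {ω | ∀ n ∈ pts F, n ∈ AA m E ω} (fun _ => (1 : ℝ≥0∞)) ω =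
      ((Conf k).filter (fun F => ∀ n ∈ pts F, n ∈ AA m E ω)).card := by
    intro k ω
    simp only [Set.indicator_apply, Set.mem_ofPred_eq]
    rw [Finset.sum_ite]
    simp
  have hk : ∀ k, PP m {ω | t k ≤ (((Conf k).filter
      (fun F => ∀ n ∈ pts F, n ∈ AA m E ω)).card : ℝ)} ≤ ENNReal.ofReal (δ k) := by
    intro k
    have hmk := meas_ge_le_lintegral_div (μ := PP m) (hmeas k).aemeasurable
      (ε := ENNReal.ofReal (t k)) (by simpa using ht k) ENNReal.ofReal_ne_top
    have hset : {ω : ∀ c, Fin (m c) | t k ≤ (((Conf k).filter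
        (fun F => ∀ n ∈ pts F, n ∈ AA m E ω)).card : ℝ)} ⊆
        {ω | ENNReal.ofReal (t k) ≤ ∑ F ∈ Conf k,
          Set.indicator {ω | ∀ n ∈ pts F, n ∈ AA m E ω} (fun _ => (1 : ℝ≥0∞)) ω} := by
      intro ω hω
      simp only [Set.mem_ofPred_eq] at hω ⊢
      rw [hcard]
      calc ENNReal.ofReal (t k) ≤ ENNReal.ofReal (((Conf k).filter
            (fun F => ∀ n ∈ pts F, n ∈ AA m E ω)).card : ℝ) := ENNReal.ofReal_le_ofReal hω
        _ = _ := ENNReal.ofReal_natCast _
    refine (measure_mono hset).trans (hmk.trans ?_)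
    rw [lintegral_finsetSum _ (fun F _ => measurable_const.indicator
      (measurableSet_subset hE (pts F)))]
    have h1 : (∑ F ∈ Conf k, ∫⁻ ω, Set.indicator {ω | ∀ n ∈ pts F, n ∈ AA m E ω}
        (fun _ => (1 : ℝ≥0∞)) ω ∂(PP m)) ≤ ENNReal.ofReal (δ k * t k) := by
      calc (∑ F ∈ Conf k, ∫⁻ ω, Set.indicator {ω | ∀ n ∈ pts F, n ∈ AA m E ω}
        (fun _ => (1 : ℝ≥0∞)) ω ∂(PP m)) ≤ ∑ F ∈ Conf k, ENNReal.ofReal (∏ n ∈ pts F, p n) := by
            refine Finset.sum_le_sum (fun F _ => ?_)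
            rw [lintegral_indicator_const (measurableSet_subset hE (pts F)), one_mul]
            exact prob_subset_le hE p hp0 hp (pts F)
        _ = ENNReal.ofReal (∑ F ∈ Conf k, ∏ n ∈ pts F, p n) := by
            rw [ENNReal.ofReal_sum_of_nonneg]
            intro F _
            exact Finset.prod_nonneg (fun n _ => hp0 n)
        _ ≤ _ := ENNReal.ofReal_le_ofReal (hb k)
    calc _ ≤ ENNReal.ofReal (δ k * t k) / ENNReal.ofReal (t k) := ENNReal.div_le_div_right h1 _
      _ = ENNReal.ofReal (δ k) := by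
          rw [ENNReal.ofReal_mul (hδ k), ENNReal.mul_div_cancel_right (by simpa using ht k)
            ENNReal.ofReal_ne_top]
  have huniv : (1 : ℝ≥0∞) ≤ ∑' k, ENNReal.ofReal (δ k) := by
    calc (1 : ℝ≥0∞) = PP m Set.univ := measure_univ.symm
      _ ≤ PP m (⋃ k, {ω | t k ≤ (((Conf k).filter
            (fun F => ∀ n ∈ pts F, n ∈ AA m E ω)).card : ℝ)}) := by
          apply measure_mono
          intro ω _
          obtain ⟨k, hk⟩ := hcon ω
          exact Set.mem_iUnion.2 ⟨k, hk⟩
      _ ≤ ∑' k, PP m {ω | t k ≤ (((Conf k).filter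
            (fun F => ∀ n ∈ pts F, n ∈ AA m E ω)).card : ℝ)} := measure_iUnion_le _
      _ ≤ _ := ENNReal.tsum_le_tsum hk
  rw [← ENNReal.ofReal_tsum_of_nonneg hδ hsum] at huniv
  have : ENNReal.ofReal (∑' k, δ k) < 1 := by
    rw [← ENNReal.ofReal_one]
    exact (ENNReal.ofReal_lt_ofReal_iff one_pos).2 hlt
  exact absurd huniv (not_le.2 this)

end prob

end Pool.Agent.R100.Chg
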