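import Mathlib
import Pool.Agent.R100.ChgProb
import Pool.Agent.R100.ChgBase

/-!
Assembly: existence of a dense set of positive integers without configurations.
-/

set_option autoImplicit false
set_option linter.unusedSectionVars false

open Finset

namespace Pool.Agent.R100.Chg

variable {a b : ℕ}

/-- Cell sizes. -/
noncomputable def mm (a b k : ℕ) : ℕ := ⌈(2 : ℝ) ^ (bet a b * (k : ℝ) ^ 2 + 9 * k)⌉₊

lemma mm_pos (k : ℕ) : 0 < mm a b k := by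
  unfold mm
  rw [Nat.ceil_pos]
  positivity

/-- Number of cells. -/
noncomputable def TT (a b k0 k : ℕ) : ℕ :=
  if k < k0 then 0 else ⌊(2 : ℝ) ^ (alp a b * (k : ℝ) ^ 2 - 16 * k)⌋₊

lemma half_pow (n : ℕ) : ((1 : ℝ) / 2) ^ n = (2 : ℝ) ^ (-(n : ℝ)) := by
  rw [Real.rpow_neg (by norm_num), Real.rpow_natCast, one_div, inv_pow]

lemma TT_mul_mm_le (ha : 0 < a) (hb : 0 < b) {k0 k : ℕ} (hk : 3 ≤ k) :
    ((TT a b k0 k * mm a b k : ℕ) : ℝ) ≤ (2 : ℝ) ^ ((k : ℝ) ^ 2 - 2 - 6 * k) := by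
  have hβ := bet_pos ha hb
  have hα := alp_pos ha hb
  have hk' : (3 : ℝ) ≤ k := by exact_mod_cast hk
  have h1 : (TT a b k0 k : ℝ) ≤ (2 : ℝ) ^ (alp a b * (k : ℝ) ^ 2 - 16 * k) := by
    unfold TT
    split_ifs
    · simp; positivity
    · exact Nat.floor_le (by positivity)
  have h2 : (mm a b k : ℝ) ≤ 2 * (2 : ℝ) ^ (bet a b * (k : ℝ) ^ 2 + 9 * k) := by
    unfold mm
    have h3 : (1 : ℝ) ≤ (2 : ℝ) ^ (bet a b * (k : ℝ) ^ 2 + 9 * k) := by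
      apply Real.one_le_rpow (by norm_num)
      positivity
    have := (Nat.ceil_lt_add_one (show (0 : ℝ) ≤ (2 : ℝ) ^ (bet a b * (k : ℝ) ^ 2 + 9 * k) by
      positivity)).le
    linarith
  push_cast
  calc (TT a b k0 k : ℝ) * (mm a b k : ℝ)
      ≤ (2 : ℝ) ^ (alp a b * (k : ℝ) ^ 2 - 16 * k) *
        (2 * (2 : ℝ) ^ (bet a b * (k : ℝ) ^ 2 + 9 * k)) := by gcongr
    _ = (2 : ℝ) ^ ((k : ℝ) ^ 2 - 7 * k + 1) := by
        have e : (k : ℝ) ^ 2 - 7 * k + 1 = (alp a b * (k : ℝ) ^ 2 - 16 * k) +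
            (1 + (bet a b * (k : ℝ) ^ 2 + 9 * k)) := by
          have := alp_add_bet ha hb
          have h5 : (k : ℝ) ^ 2 = (alp a b + bet a b) * (k : ℝ) ^ 2 := by rw [this, one_mul]
          linear_combination h5
        rw [e, Real.rpow_add (by norm_num : (0 : ℝ) < 2) (alp a b * (k : ℝ) ^ 2 - 16 * k)
          (1 + (bet a b * (k : ℝ) ^ 2 + 9 * k)), Real.rpow_add (by norm_num : (0 : ℝ) < 2) 1
          (bet a b * (k : ℝ) ^ 2 + 9 * k), Real.rpow_one]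
    _ ≤ _ := by
        apply Real.rpow_le_rpow_of_exponent_le (by norm_num)
        linarith

lemma two_pow_cast (k : ℕ) : ((2 ^ (k ^ 2 + 1) : ℕ) : ℝ) = (2 : ℝ) ^ ((k : ℝ) ^ 2 + 1) := by
  push_cast
  rw [← Real.rpow_natCast]
  push_cast
  rfl

lemma inv_mm_le (ha : 0 < a) (hb : 0 < b) {k n : ℕ} (h1 : 2 ^ (k ^ 2) ≤ n)
    (h2 : n < 2 ^ (k ^ 2 + 1)) : (1 : ℝ) / mm a b k ≤ pp a b n := by
  have hβ := bet_pos ha hb
  have hα := alp_pos ha hb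
  have hαβ := alp_add_bet ha hb
  have hn0 : 0 < n := lt_of_lt_of_le (by positivity) h1
  unfold pp
  rw [kap_of_mem h1 h2]
  have h3 : (2 : ℝ) ^ (bet a b * (k : ℝ) ^ 2 + 9 * k) ≤ mm a b k := by
    unfold mm; exact Nat.le_ceil _
  have h4 : (n : ℝ) ≤ (2 : ℝ) ^ ((k : ℝ) ^ 2 + 1) := by
    rw [← two_pow_cast]
    exact_mod_cast h2.le
  have h5 : ((2 : ℝ) ^ ((k : ℝ) ^ 2 + 1)) ^ (-bet a b) ≤ (n : ℝ) ^ (-bet a b) := by
    apply Real.rpow_le_rpow_of_nonpos (by exact_mod_cast hn0) h4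
    linarith
  calc (1 : ℝ) / mm a b k ≤ 1 / (2 : ℝ) ^ (bet a b * (k : ℝ) ^ 2 + 9 * k) := by
        apply one_div_le_one_div_of_le (by positivity) h3
    _ = (2 : ℝ) ^ (-(bet a b * (k : ℝ) ^ 2)) * ((1 : ℝ) / 2) ^ (9 * k) := by
        rw [half_pow, one_div, ← Real.rpow_neg (by norm_num), ← Real.rpow_add (by norm_num)]
        congr 1
        push_cast
        ring
    _ ≤ 2 * ((2 : ℝ) ^ ((k : ℝ) ^ 2 + 1)) ^ (-bet a b) * ((1 : ℝ) / 2) ^ (9 * k) := by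
        apply mul_le_mul_of_nonneg_right _ (by positivity)
        rw [← Real.rpow_mul (by norm_num)]
        have e : (2 : ℝ) * (2 : ℝ) ^ (((k : ℝ) ^ 2 + 1) * -bet a b) =
            (2 : ℝ) ^ (1 + ((k : ℝ) ^ 2 + 1) * -bet a b) := by
          rw [Real.rpow_add (by norm_num), Real.rpow_one]
        rw [e]
        apply Real.rpow_le_rpow_of_exponent_le (by norm_num)
        nlinarith
    _ ≤ _ := by gcongr

/-- The final estimate for the expected number of bad configurations. -/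
lemma estimate (ha : 0 < a) (hb : 0 < b) {k : ℕ} (hk : 1 ≤ k)
    (hbig : (2 : ℝ) ^ ((a + 1) * (b + 1) + 14) * ((k : ℝ) ^ 2 + 2) ^ (a + b + 1) ≤ 2 ^ k) :
    ∑ F ∈ Conf a b k, ∏ n ∈ pts F, pp a b n ≤
      ((1 : ℝ) / 2) ^ (k + 2) * (2 : ℝ) ^ (alp a b * (k : ℝ) ^ 2 - 16 * k - 2) := by
  have hα := alp_pos ha hb
  have hβ := bet_pos ha hb
  have hαβ := alp_add_bet ha hb
  have hα1 : alp a b ≤ 1 := by linarith
  refine (sum_conf_le ha hb hk).trans ?_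
  have e1 : ((2 : ℝ) ^ ((k : ℝ) ^ 2 + 1)) ^ (alp a b) ≤
      2 * (2 : ℝ) ^ (alp a b * (k : ℝ) ^ 2) := by
    rw [← Real.rpow_mul (by norm_num)]
    have : (2 : ℝ) * (2 : ℝ) ^ (alp a b * (k : ℝ) ^ 2) = (2 : ℝ) ^ (1 + alp a b * (k : ℝ) ^ 2) := by
      rw [Real.rpow_add (by norm_num), Real.rpow_one]
    rw [this]
    apply Real.rpow_le_rpow_of_exponent_le (by norm_num)
    nlinarith
  have e2 : (2 : ℝ) ^ (alp a b * (k : ℝ) ^ 2 - 16 * k - 2) =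
      (2 : ℝ) ^ (alp a b * (k : ℝ) ^ 2) * (((1 : ℝ) / 2) ^ (16 * k) * ((1 : ℝ) / 2) ^ 2) := by
    rw [show alp a b * (k : ℝ) ^ 2 - 16 * k - 2 = alp a b * (k : ℝ) ^ 2 + (-(16 * (k : ℝ)) + -2) by
      ring, Real.rpow_add (by norm_num), Real.rpow_add (by norm_num)]
    congr 1
    congr 1
    · rw [half_pow]
      push_cast
      rfl
    · rw [half_pow]
      norm_num
  rw [e2]
  have e3 : ((1 : ℝ) / 2) ^ (9 * k) * ((1 : ℝ) / 2) ^ (9 * (k - 1)) =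
      2 ^ 9 * ((1 : ℝ) / 2) ^ (18 * k) := by
    obtain ⟨m, rfl⟩ : ∃ m, k = m + 1 := ⟨k - 1, by omega⟩
    rw [Nat.add_sub_cancel, ← pow_add]
    have : 18 * (m + 1) = (9 * (m + 1) + 9 * m) + 9 := by ring
    rw [this, pow_add _ (9 * (m + 1) + 9 * m) 9]
    norm_num
    ring
  rw [e3]
  have hX : (0 : ℝ) < (2 : ℝ) ^ (alp a b * (k : ℝ) ^ 2) := by positivity
  set X := (2 : ℝ) ^ (alp a b * (k : ℝ) ^ 2) with hXdef
  have h7 : ((1 : ℝ) / 2) ^ (18 * k) = ((1 : ℝ) / 2) ^ (17 * k) * ((1 : ℝ) / 2) ^ k := by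
    rw [← pow_add]; congr 1; ring
  have h8 : ((1 : ℝ) / 2) ^ (k + 2) * (X * (((1 : ℝ) / 2) ^ (16 * k) * ((1 : ℝ) / 2) ^ 2)) =
      X * ((1 : ℝ) / 2) ^ (17 * k) * ((1 : ℝ) / 2) ^ 4 := by
    rw [show 17 * k = k + 16 * k by ring, pow_add, pow_add]
    ring
  rw [h7, h8]
  calc 2 ^ ((a + 1) * (b + 1)) * (2 ^ 9 * (((1 : ℝ) / 2) ^ (17 * k) * ((1 : ℝ) / 2) ^ k)) *
        (((2 : ℝ) ^ ((k : ℝ) ^ 2 + 1)) ^ alp a b * ((k : ℝ) ^ 2 + 2) ^ (a + b + 1))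
      ≤ 2 ^ ((a + 1) * (b + 1)) * (2 ^ 9 * (((1 : ℝ) / 2) ^ (17 * k) * ((1 : ℝ) / 2) ^ k)) *
        ((2 * X) * ((k : ℝ) ^ 2 + 2) ^ (a + b + 1)) := by gcongr
    _ = (X * ((1 : ℝ) / 2) ^ (17 * k) * ((1 : ℝ) / 2) ^ 4) * (((1 : ℝ) / 2) ^ k *
        ((2 : ℝ) ^ ((a + 1) * (b + 1) + 14) * ((k : ℝ) ^ 2 + 2) ^ (a + b + 1))) := by
        rw [pow_add (2 : ℝ) ((a + 1) * (b + 1)) 14]
        ring
    _ ≤ (X * ((1 : ℝ) / 2) ^ (17 * k) * ((1 : ℝ) / 2) ^ 4) * (((1 : ℝ) / 2) ^ k * 2 ^ k) := by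
        gcongr
    _ = _ := by
        rw [← mul_pow]
        norm_num

end Pool.Agent.R100.Chg
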