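import Mathlib
import Pool.Agent.R100.ChgMain

/-!
The set without configurations.
-/

set_option autoImplicit false
set_option linter.unusedSectionVars false

open Finset

namespace Pool.Agent.R100.Chg

variable {a b : ℕ}

/-- Structure of block sets. -/
structure Blk (B : ℕ → Finset ℕ) (k0 : ℕ) : Prop where
  three : 3 ≤ k0
  mem : ∀ k, ∀ n ∈ B k, 2 ^ (k ^ 2) ≤ n ∧ n < 2 ^ (k ^ 2) + 2 ^ (k ^ 2 - 2)
  free : ∀ k, ThreeAPFree (B k : Set ℕ)

lemma pow_sq_lt {j k : ℕ} (hj : 3 ≤ j) (hjk : j < k) : 2 ^ (j ^ 2) * 16 ≤ 2 ^ (k ^ 2) := by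
  have : j ^ 2 + 4 ≤ k ^ 2 := by nlinarith
  calc 2 ^ (j ^ 2) * 16 = 2 ^ (j ^ 2 + 4) := by rw [pow_add]; norm_num
    _ ≤ 2 ^ (k ^ 2) := Nat.pow_le_pow_right (by norm_num) this

lemma quarter {k : ℕ} (hk : 3 ≤ k) : 4 * 2 ^ (k ^ 2 - 2) = 2 ^ (k ^ 2) := by
  have : 2 ≤ k ^ 2 := by nlinarith
  calc 4 * 2 ^ (k ^ 2 - 2) = 2 ^ (k ^ 2 - 2 + 2) := by rw [pow_add]; ring
    _ = _ := by congr 1; omega

/-- An element at least three eighths as large as the start of block `k`, and at most an element of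
the block `k`, lies in the block `k`. -/
lemma blk_eq {j k x : ℕ} (hj : 3 ≤ j) (hk : 3 ≤ k)
    (hx : 2 ^ (j ^ 2) ≤ x ∧ x < 2 ^ (j ^ 2) + 2 ^ (j ^ 2 - 2))
    (h1 : 2 ^ (k ^ 2) ≤ 2 * x) (h2 : x < 2 ^ (k ^ 2) + 2 ^ (k ^ 2 - 2)) : j = k := by
  have q1 := quarter hj
  have q2 := quarter hk
  rcases lt_trichotomy j k with h | h | h
  · have := pow_sq_lt hj h
    omega
  · exact h
  · have := pow_sq_lt hk h
    omega

lemma union_free {B : ℕ → Finset ℕ} {k0 : ℕ} (hB : Blk B k0) {x y z : ℕ}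
    (hx : ∃ k, k0 ≤ k ∧ x ∈ B k) (hy : ∃ k, k0 ≤ k ∧ y ∈ B k) (hz : ∃ k, k0 ≤ k ∧ z ∈ B k)
    (h : x + z = y + y) : x = y := by
  have key : ∀ {x y z : ℕ}, (∃ k, k0 ≤ k ∧ x ∈ B k) → (∃ k, k0 ≤ k ∧ y ∈ B k) →
      (∃ k, k0 ≤ k ∧ z ∈ B k) → x + z = y + y → x ≤ z → x = y := by
    intro x y z hx hy hz h hxz
    obtain ⟨i, hi, hx⟩ := hx
    obtain ⟨j, hj, hy⟩ := hy
    obtain ⟨k, hk, hz⟩ := hz
    have h3 := hB.three
    have mx := hB.mem i x hx
    have my := hB.mem j y hy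
    have mz := hB.mem k z hz
    have q := quarter (show 3 ≤ k by omega)
    have e1 : j = k := blk_eq (by omega) (by omega) my (by omega) (by omega)
    subst e1
    have e2 : i = j := blk_eq (by omega) (by omega) mx (by omega) (by omega)
    subst e2
    exact hB.free i hx hy hz h
  rcases le_total x z with hxz | hxz
  · exact key hx hy hz h hxz
  · have := key hz hy hx (by omega) hxz
    omega

theorem exists_set (ha : 0 < a) (hb : 0 < b) : ∃ k0 : ℕ, 3 ≤ k0 ∧ ∃ A : Set ℕ,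
    (∀ n ∈ A, 0 < n) ∧ ThreeAPFree A ∧ (∀ F : Cfg a b, IsC F → ¬ ∀ q, yy F q ∈ A) ∧
    ∀ k, k0 ≤ k → (2 : ℝ) ^ (alp a b * (k : ℝ) ^ 2 - 16 * k - 3) ≤
      ((A ∩ Set.Ico (2 ^ (k ^ 2)) (2 ^ (k ^ 2 + 1))).ncard : ℝ) := by
  classical
  have hα := alp_pos ha hb
  -- threshold
  have hev := eventually_poly ((2 : ℝ) ^ ((a + 1) * (b + 1) + 14)) (a + b + 1)
  have hev2 : ∀ᶠ k : ℕ in Filter.atTop, 1 ≤ alp a b * (k : ℝ) ^ 2 - 16 * k := by
    have : Filter.Tendsto (fun k : ℕ => (k : ℝ) * (alp a b * (k : ℝ) - 16)) Filter.atTop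
        Filter.atTop := by
      apply Filter.Tendsto.atTop_mul_atTop₀ tendsto_natCast_atTop_atTop
      apply Filter.tendsto_atTop_add_const_right
      exact Filter.Tendsto.const_mul_atTop hα tendsto_natCast_atTop_atTop
    filter_upwards [this.eventually_ge_atTop 1] with k hk
    calc (1 : ℝ) ≤ (k : ℝ) * (alp a b * (k : ℝ) - 16) := hk
      _ = _ := by ring
  obtain ⟨K, hK⟩ := Filter.eventually_atTop.1 (hev.and hev2)
  set k0 := max K 3 with hk0
  have hk03 : 3 ≤ k0 := le_max_right _ _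
  have hbig : ∀ k, k0 ≤ k → (2 : ℝ) ^ ((a + 1) * (b + 1) + 14) *
      ((k : ℝ) ^ 2 + 2) ^ (a + b + 1) ≤ 2 ^ k := fun k hk => (hK k ((le_max_left _ _).trans hk)).1
  have hone : ∀ k, k0 ≤ k → 1 ≤ alp a b * (k : ℝ) ^ 2 - 16 * k :=
    fun k hk => (hK k ((le_max_left _ _).trans hk)).2
  -- base sets
  have hbase : ∀ k : ℕ, ∃ B : Finset ℕ,
      (∀ n ∈ B, 2 ^ (k ^ 2) ≤ n ∧ n < 2 ^ (k ^ 2) + 2 ^ (k ^ 2 - 2)) ∧
      ThreeAPFree (B : Set ℕ) ∧ (3 ≤ k → (2 : ℝ) ^ ((k : ℝ) ^ 2 - 2 - 6 * k) ≤ B.card) := by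
    intro k
    by_cases hk : 3 ≤ k
    · obtain ⟨B, h1, h2, h3⟩ := exists_base k hk
      exact ⟨B, h1, h2, fun _ => h3⟩
    · refine ⟨∅, by simp, by simp, fun h => absurd h hk⟩
  choose B hB1 hB2 hB3 using hbase
  have hBlk : Blk B k0 := ⟨hk03, hB1, hB2⟩
  -- embeddings
  have hemb : ∀ k : ℕ, ∃ e : Fin (TT a b k0 k) × Fin (mm a b k) → ℕ,
      Function.Injective e ∧ ∀ x, e x ∈ B k := by
    intro k
    have hcard : Fintype.card (Fin (TT a b k0 k) × Fin (mm a b k)) ≤ Fintype.card (B k) := by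
      rw [Fintype.card_prod, Fintype.card_fin, Fintype.card_fin, Fintype.card_coe]
      by_cases hk : k < k0
      · have : TT a b k0 k = 0 := by unfold TT; rw [if_pos hk]
        rw [this]; simp
      · have h1 := TT_mul_mm_le (a := a) (b := b) ha hb (k0 := k0) (k := k) (by omega)
        have h2 := hB3 k (by omega)
        exact_mod_cast h1.trans h2
    obtain ⟨f⟩ := Function.Embedding.nonempty_of_card_le hcard
    exact ⟨fun x => (f x : ℕ), fun x y h => f.injective (Subtype.ext h), fun x => (f x).2⟩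
  choose e he1 he2 using hemb
  let ι : Type := Σ k : ℕ, Fin (TT a b k0 k)
  let m : ι → ℕ := fun c => mm a b c.1
  have : ∀ c, NeZero (m c) := fun c => ⟨(mm_pos c.1).ne'⟩
  let E : (Σ c : ι, Fin (m c)) → ℕ := fun x => e x.1.1 (x.1.2, x.2)
  have hkT : ∀ k (t : Fin (TT a b k0 k)), k0 ≤ k := by
    intro k t
    by_contra hlt
    have : TT a b k0 k = 0 := by unfold TT; rw [if_pos (by omega)]
    have ht := t.2
    omega
  have hmemE : ∀ (k : ℕ) (t : Fin (TT a b k0 k)) (s : Fin (mm a b k)),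
      2 ^ (k ^ 2) ≤ e k (t, s) ∧ e k (t, s) < 2 ^ (k ^ 2 + 1) := by
    intro k t s
    have h1 := hB1 k _ (he2 k (t, s))
    have h2 := quarter (show 3 ≤ k from hk03.trans (hkT k t))
    have h3 : 2 ^ (k ^ 2 + 1) = 2 * 2 ^ (k ^ 2) := by rw [pow_succ 2 (k ^ 2), mul_comm]
    omega
  have hE : Function.Injective E := by
    rintro ⟨⟨k, t⟩, s⟩ ⟨⟨k', t'⟩, s'⟩ h
    have h1 := hmemE k t s
    have h2 := hmemE k' t' s'
    have h' : e k (t, s) = e k' (t', s') := h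
    have hkk : k = k' := by
      rw [← kap_of_mem h1.1 h1.2, ← kap_of_mem h2.1 h2.2, h']
    subst hkk
    have h3 := he1 k h'
    rw [Prod.mk.injEq] at h3
    obtain ⟨rfl, rfl⟩ := h3
    rfl
  have hp : ∀ c s, (1 : ℝ) / m c ≤ pp a b (E ⟨c, s⟩) := by
    rintro ⟨k, t⟩ s
    exact inv_mm_le ha hb (hmemE k t s).1 (hmemE k t s).2
  -- thresholds
  let t : ℕ → ℝ := fun k => if k < k0 then 1 else (2 : ℝ) ^ (alp a b * (k : ℝ) ^ 2 - 16 * k - 2)
  let δ : ℕ → ℝ := fun k => ((1 : ℝ) / 2) ^ (k + 2)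
  let Cf : ℕ → Finset (Cfg a b) := fun k => if k < k0 then ∅ else Conf a b k
  have hδs : HasSum δ (1 / 2) := by
    have h1 := (hasSum_geometric_of_lt_one (r := (1 : ℝ) / 2) (by norm_num) (by norm_num)).mul_right
      (((1 : ℝ) / 2) ^ 2)
    have h2 : (1 - (1 : ℝ) / 2)⁻¹ * ((1 : ℝ) / 2) ^ 2 = 1 / 2 := by norm_num
    rw [h2] at h1
    have h3 : δ = fun i => ((1 : ℝ) / 2) ^ i * ((1 : ℝ) / 2) ^ 2 := by
      funext i
      simp only [δ]
      rw [pow_add]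
    rw [h3]
    exact h1
  obtain ⟨ω, hω⟩ := exists_choice (m := m) (E := E) hE (pp a b) pp_nonneg hp (pts (a := a) (b := b))
    Cf t δ (by
      intro k
      simp only [t]
      split_ifs
      · exact one_pos
      · positivity) (fun k => by positivity) hδs.summable
    (by rw [hδs.tsum_eq]; norm_num) (by
      intro k
      simp only [Cf, t, δ]
      split_ifs with hk
      · simp only [Finset.sum_empty]; positivity
      · exact estimate ha hb (by omega) (hbig k (by omega)))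
  have hAAmem : ∀ n ∈ AA m E ω, ∃ k, k0 ≤ k ∧ n ∈ B k := by
    rintro n ⟨⟨k, t⟩, rfl⟩
    exact ⟨k, hkT k t, he2 k _⟩
  refine ⟨k0, hk03, {n | n ∈ AA m E ω ∧ ¬ ∃ F : Cfg a b, IsC F ∧ (∀ q, yy F q ∈ AA m E ω) ∧
    ∃ q, yy F q = n ∧ ∀ q', yy F q' ≤ n}, ?_, ?_, ?_, ?_⟩
  · rintro n ⟨hn, -⟩
    obtain ⟨k, -, hk⟩ := hAAmem n hn
    have := (hB1 k n hk).1
    have h2 : 0 < 2 ^ (k ^ 2) := by positivity
    omega
  · rintro x ⟨hx, -⟩ y ⟨hy, -⟩ z ⟨hz, -⟩ h
    exact union_free hBlk (hAAmem x hx) (hAAmem y hy) (hAAmem z hz) h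
  · intro F hF hall
    obtain ⟨q, -, hq⟩ := Finset.exists_max_image (univ : Finset (Fin (a + 1) × Fin (b + 1)))
      (yy F) ⟨(0, 0), mem_univ _⟩
    exact (hall q).2 ⟨F, hF, fun q' => (hall q').1, q, rfl, fun q' => hq q' (mem_univ _)⟩
  · intro k hk
    have hω' := hω k
    simp only [Cf, t, if_neg (not_lt.2 hk)] at hω'
    set bad := (Conf a b k).filter (fun F => ∀ n ∈ pts F, n ∈ AA m E ω) with hbad
    set S : Finset ℕ := (univ : Finset (Fin (TT a b k0 k))).image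
      (fun s => E ⟨⟨k, s⟩, ω ⟨k, s⟩⟩) with hS
    set R : Finset ℕ := bad.image (fun F => univ.sup (yy F)) with hR
    have hScard : S.card = TT a b k0 k := by
      rw [hS, Finset.card_image_of_injective, Finset.card_univ, Fintype.card_fin]
      intro s s' h
      have h1 := hE h
      have h2 := (Sigma.mk.inj h1).1
      have h3 := (Sigma.mk.inj h2).2
      exact eq_of_heq h3
    have hRcard : R.card ≤ bad.card := Finset.card_image_le
    have hsub : ((S \ R : Finset ℕ) : Set ℕ) ⊆ {n | n ∈ AA m E ω ∧ ¬ ∃ F : Cfg a b, IsC F ∧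
        (∀ q, yy F q ∈ AA m E ω) ∧ ∃ q, yy F q = n ∧ ∀ q', yy F q' ≤ n} ∩
        Set.Ico (2 ^ (k ^ 2)) (2 ^ (k ^ 2 + 1)) := by
      intro n hn
      rw [Finset.mem_coe, Finset.mem_sdiff] at hn
      obtain ⟨hnS, hnR⟩ := hn
      rw [hS, Finset.mem_image] at hnS
      obtain ⟨s, -, rfl⟩ := hnS
      have hr := hmemE k s (ω ⟨k, s⟩)
      refine ⟨⟨⟨⟨k, s⟩, rfl⟩, ?_⟩, hr.1, hr.2⟩
      rintro ⟨F, hF, hall, q, hq1, hq2⟩
      apply hnR
      rw [hR, Finset.mem_image]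
      refine ⟨F, ?_, ?_⟩
      · rw [hbad, Finset.mem_filter, mem_Conf]
        have hlt : ∀ q', yy F q' < 2 ^ (k ^ 2 + 1) := fun q' => lt_of_le_of_lt (hq2 q') hr.2
        refine ⟨⟨?_, hF, q, ?_, ?_, ?_⟩, ?_⟩
        · unfold Box
          simp only [Finset.mem_product, Finset.mem_Icc, Fintype.mem_piFinset]
          refine ⟨⟨hF.1, ?_⟩, fun i => ⟨?_, ?_⟩, fun j => ⟨?_, ?_⟩⟩
          · have := hlt (0, 0); rw [yy_zero_zero] at this; exact this.le
          · have := hF.2.1 i; have := hF.1; omega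
          · have := hlt (i.succ, 0); rw [yy_succ_zero] at this; exact this.le
          · have := hF.2.2.1 j; have := hF.1; omega
          · have := hlt (0, j.succ); rw [yy_zero_succ] at this; exact this.le
        · rw [hq1]; exact hr.1
        · rw [hq1]; exact hr.2
        · intro q'; rw [hq1]; exact hq2 q'
        · intro n hn
          unfold pts at hn
          rw [Finset.mem_image] at hn
          obtain ⟨q', -, rfl⟩ := hn
          exact hall q'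
      · apply le_antisymm
        · exact Finset.sup_le (fun q' _ => hq2 q')
        · rw [← hq1]; exact Finset.le_sup (f := yy F) (mem_univ q)
    have hcard : S.card - R.card ≤ ({n | n ∈ AA m E ω ∧ ¬ ∃ F : Cfg a b, IsC F ∧
        (∀ q, yy F q ∈ AA m E ω) ∧ ∃ q, yy F q = n ∧ ∀ q', yy F q' ≤ n} ∩
        Set.Ico (2 ^ (k ^ 2)) (2 ^ (k ^ 2 + 1))).ncard := by
      calc S.card - R.card ≤ (S \ R).card := Finset.le_card_sdiff _ _
        _ = ((S \ R : Finset ℕ) : Set ℕ).ncard := (Set.ncard_coe_finset _).symm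
        _ ≤ _ := Set.ncard_le_ncard hsub ((Set.finite_Ico _ _).subset Set.inter_subset_right)
    have hT : (2 : ℝ) ^ (alp a b * (k : ℝ) ^ 2 - 16 * k) - 1 ≤ TT a b k0 k := by
      unfold TT
      rw [if_neg (not_lt.2 hk)]
      exact (Nat.sub_one_lt_floor _).le
    have h2 : (2 : ℝ) ≤ (2 : ℝ) ^ (alp a b * (k : ℝ) ^ 2 - 16 * k) := by
      calc (2 : ℝ) = (2 : ℝ) ^ (1 : ℝ) := (Real.rpow_one 2).symm
        _ ≤ _ := Real.rpow_le_rpow_of_exponent_le (by norm_num) (hone k hk)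
    have e2 : (2 : ℝ) ^ (alp a b * (k : ℝ) ^ 2 - 16 * k - 2) =
        (2 : ℝ) ^ (alp a b * (k : ℝ) ^ 2 - 16 * k) / 4 := by
      rw [Real.rpow_sub (by norm_num)]; norm_num
    have e3 : (2 : ℝ) ^ (alp a b * (k : ℝ) ^ 2 - 16 * k - 3) =
        (2 : ℝ) ^ (alp a b * (k : ℝ) ^ 2 - 16 * k) / 8 := by
      rw [Real.rpow_sub (by norm_num)]; norm_num
    rw [e2] at hω'
    rw [e3]
    have h5 : (S.card : ℝ) - (R.card : ℝ) ≤ ((S.card - R.card : ℕ) : ℝ) := by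
      rw [sub_le_iff_le_add]
      exact_mod_cast Nat.sub_le_iff_le_add.1 le_rfl
    have h6 : ((S.card - R.card : ℕ) : ℝ) ≤ (({n | n ∈ AA m E ω ∧ ¬ ∃ F : Cfg a b, IsC F ∧
        (∀ q, yy F q ∈ AA m E ω) ∧ ∃ q, yy F q = n ∧ ∀ q', yy F q' ≤ n} ∩
        Set.Ico (2 ^ (k ^ 2)) (2 ^ (k ^ 2 + 1))).ncard : ℝ) := by exact_mod_cast hcard
    have h7 : (R.card : ℝ) ≤ bad.card := by exact_mod_cast hRcard
    have h8 : (S.card : ℝ) = TT a b k0 k := by rw [hScard]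
    linarith

end Pool.Agent.R100.Chg
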